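import Pool.Agent.Helper97.CB.St

set_option autoImplicit false

open MeasureTheory Set Filter

namespace Pool.Agent.Helper36.CB

open Helper97.CB

/-- Horizontal section. -/
private def Sec (A : Set ℂ) (t : ℝ) : Set ℝ := {x : ℝ | (⟨x, t⟩ : ℂ) ∈ A}

private theorem vol_sec {A : Set ℂ} (hA : MeasurableSet A) :
    volume A = ∫⁻ t : ℝ, volume (Sec A t) := by
  have h1 := (Complex.volume_preserving_equiv_real_prod.symm).measure_preimage hA.nullMeasurableSet
  have hm : MeasurableSet (Complex.measurableEquivRealProd.symm ⁻¹' A) :=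
    Complex.measurableEquivRealProd.symm.measurable hA
  rw [← h1, Measure.volume_eq_prod, Measure.prod_apply_symm hm]
  rfl

private theorem meas_sec {A : Set ℂ} (hA : MeasurableSet A) :
    Measurable fun t : ℝ => volume (Sec A t) := by
  have hm : MeasurableSet (Complex.measurableEquivRealProd.symm ⁻¹' A) :=
    Complex.measurableEquivRealProd.symm.measurable hA
  exact measurable_measure_prodMk_right hm

private theorem sec_compact {K : Set ℂ} (hK : IsCompact K) (t : ℝ) : IsCompact (Sec K t) := by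
  have h : Sec K t = Complex.re '' (K ∩ Complex.im ⁻¹' {t}) := by
    ext x
    constructor
    · intro hx
      exact ⟨⟨x, t⟩, ⟨hx, rfl⟩, rfl⟩
    · rintro ⟨z, ⟨hz, hz2⟩, rfl⟩
      have hz3 : z.im = t := hz2
      have : (⟨z.re, t⟩ : ℂ) = z := by rw [← hz3]
      change (⟨z.re, t⟩ : ℂ) ∈ K
      rwa [this]
  rw [h]
  exact (hK.inter_right (isClosed_singleton.preimage Complex.continuous_im)).image Complex.continuous_re

private theorem sec_convex {K : Set ℂ} (hK : Convex ℝ K) (t : ℝ) : Convex ℝ (Sec K t) := by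
  intro x hx y hy a b ha hb hab
  have h := hK hx hy ha hb hab
  have e : a • (⟨x, t⟩ : ℂ) + b • (⟨y, t⟩ : ℂ) = ⟨a • x + b • y, t⟩ := by
    apply Complex.ext
    · simp
    · simp
      rw [← add_mul, hab, one_mul]
  rw [e] at h
  exact h

private theorem sh_closed {K : Set ℂ} (hK : IsCompact K) (s : ℝ) : IsCompact (Sh K s) := by
  have h : Sh K s = K ∩ (fun z : ℂ => z + (s : ℂ)) ⁻¹' K := rfl
  rw [h]
  exact hK.inter_right (hK.isClosed.preimage (by fun_prop))

private theorem sh_convex {K : Set ℂ} (hK : Convex ℝ K) (s : ℝ) : Convex ℝ (Sh K s) := by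
  intro x hx y hy a b ha hb hab
  refine ⟨hK hx.1 hy.1 ha hb hab, ?_⟩
  have h := hK hx.2 hy.2 ha hb hab
  have e : a • (x + (s : ℂ)) + b • (y + (s : ℂ)) = a • x + b • y + (s : ℂ) := by
    have hab' : (a : ℂ) + (b : ℂ) = 1 := by exact_mod_cast hab
    simp only [Complex.real_smul]
    linear_combination (s : ℂ) * hab'
  rwa [e] at h

private theorem convex_Icc {S : Set ℝ} (hc : IsCompact S) (hv : Convex ℝ S) (hn : S.Nonempty) :
    S = Icc (sInf S) (sSup S) :=
  eq_Icc_of_connected_compact ⟨hn, hv.isPreconnected⟩ hc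

private theorem vol_im {K : Set ℂ} (hK : IsCompact K) (hv : Convex ℝ K) {s : ℝ} (hn : (Sh K s).Nonempty) :
    volume (Complex.im '' Sh K s) = ENNReal.ofReal (wid K s) := by
  have hc : IsCompact (Complex.im '' Sh K s) := (sh_closed hK s).image Complex.continuous_im
  have hcv : Convex ℝ (Complex.im '' Sh K s) := (sh_convex hv s).is_linear_image
    ⟨fun x y => by simp, fun c x => by simp⟩
  have h := convex_Icc hc hcv (hn.image _)
  rw [h, Real.volume_Icc]
  rfl

/-- The length of the section. -/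
private noncomputable def len (K : Set ℂ) (t : ℝ) : ℝ := (volume (Sec K t)).toReal

private theorem sec_cases {K : Set ℂ} (hK : IsCompact K) (hv : Convex ℝ K) (t : ℝ) :
    (Sec K t = ∅ ∧ len K t = 0) ∨ ∃ a b : ℝ, a ≤ b ∧ Sec K t = Icc a b ∧ len K t = b - a := by
  rcases (Sec K t).eq_empty_or_nonempty with h | h
  · left
    exact ⟨h, by simp [len, h]⟩
  · right
    have h1 := convex_Icc (sec_compact hK t) (sec_convex hv t) h
    have h2 : sInf (Sec K t) ≤ sSup (Sec K t) := by
      rw [h1] at h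
      exact nonempty_Icc.1 h
    refine ⟨_, _, h2, h1, ?_⟩
    have h3 : volume (Sec K t) = ENNReal.ofReal (sSup (Sec K t) - sInf (Sec K t)) := by
      conv_lhs => rw [h1]
      exact Real.volume_Icc
    unfold len
    rw [h3, ENNReal.toReal_ofReal (by linarith)]

private theorem mem_sh_sec {K : Set ℂ} {s t x : ℝ} :
    x ∈ Sec (Sh K s) t ↔ x ∈ Sec K t ∧ x + s ∈ Sec K t := by
  have e : (⟨x, t⟩ : ℂ) + (s : ℂ) = ⟨x + s, t⟩ := by
    apply Complex.ext <;> simp
  change ((⟨x, t⟩ : ℂ) ∈ K ∧ (⟨x, t⟩ : ℂ) + (s : ℂ) ∈ K) ↔ _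
  rw [e]
  rfl

private theorem vol_sh_sec {K : Set ℂ} (hK : IsCompact K) (hv : Convex ℝ K) {r : ℝ} (hr : 0 ≤ r) (t : ℝ) :
    volume (Sec (Sh K r) t) = ENNReal.ofReal (max (len K t - r) 0) := by
  rcases sec_cases hK hv t with ⟨h, hl⟩ | ⟨a, b, hab, h, hl⟩
  · have : Sec (Sh K r) t = ∅ := by
      ext x
      rw [mem_sh_sec, h]
      simp
    rw [this, hl]
    simp [hr]
  · have : Sec (Sh K r) t = Icc a (b - r) := by
      ext x
      rw [mem_sh_sec, h]
      simp only [mem_Icc]
      constructor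
      · rintro ⟨⟨h1, h2⟩, h3, h4⟩
        exact ⟨h1, by linarith⟩
      · rintro ⟨h1, h2⟩
        exact ⟨⟨h1, by linarith⟩, by linarith, by linarith⟩
    rw [this, Real.volume_Icc, hl]
    have e : b - r - a = b - a - r := by ring
    rw [e]
    simp [ENNReal.ofReal, Real.toNNReal]

private theorem mem_im_iff {K : Set ℂ} (hK : IsCompact K) (hv : Convex ℝ K) {s : ℝ} (hs : 0 < s) (t : ℝ) :
    t ∈ Complex.im '' Sh K s ↔ s ≤ len K t := by
  have h0 : t ∈ Complex.im '' Sh K s ↔ ∃ x, x ∈ Sec K t ∧ x + s ∈ Sec K t := by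
    constructor
    · rintro ⟨z, hz, rfl⟩
      exact ⟨z.re, mem_sh_sec.1 hz⟩
    · rintro ⟨x, hx⟩
      exact ⟨⟨x, t⟩, mem_sh_sec.2 hx, rfl⟩
  rw [h0]
  rcases sec_cases hK hv t with ⟨h, hl⟩ | ⟨a, b, hab, h, hl⟩
  · rw [h, hl]
    simp [hs]
  · rw [h, hl]
    constructor
    · rintro ⟨x, h1, h2⟩
      have := h1.1
      have := h2.2
      linarith
    · intro h1
      exact ⟨a, ⟨le_rfl, hab⟩, by linarith, by linarith⟩

theorem hARE (h : StWid) : StAre := by
  intro K hK r hr
  obtain ⟨hv, hc, hint⟩ := hK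
  obtain ⟨h1, h2, h3, h4, h5, h6, -⟩ := h K ⟨hv, hc, hint⟩
  have hKm : MeasurableSet K := hc.measurableSet
  have hSm : MeasurableSet (Sh K r) := (sh_closed hc r).measurableSet
  have hlm : Measurable (len K) := (meas_sec hKm).ennreal_toReal
  have e1 : volume (Sh K r) = ∫⁻ s in Ioc 0 (cmax K - r), ENNReal.ofReal (wid K (r + s)) := by
    rw [vol_sec hSm]
    simp_rw [vol_sh_sec hc hv hr.1]
    rw [lintegral_eq_lintegral_meas_le volume (f := fun t => max (len K t - r) 0)
      (Eventually.of_forall fun t => le_max_right _ _)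
      ((hlm.sub_const r).max measurable_const).aemeasurable]
    have hsub : Ioc 0 (cmax K - r) ⊆ Ioi (0 : ℝ) := fun x hx => hx.1
    have e2 : ∫⁻ s in Ioc 0 (cmax K - r), ENNReal.ofReal (wid K (r + s)) =
        ∫⁻ s in Ioi (0 : ℝ), (Ioc 0 (cmax K - r)).indicator (fun s => ENNReal.ofReal (wid K (r + s))) s := by
      rw [lintegral_indicator measurableSet_Ioc, Measure.restrict_restrict measurableSet_Ioc,
        inter_eq_self_of_subset_left hsub]
    rw [e2]
    refine setLIntegral_congr_fun measurableSet_Ioi ?_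
    intro s hs
    have hs0 : 0 < s := hs
    have e3 : {a : ℝ | s ≤ max (len K a - r) 0} = Complex.im '' Sh K (r + s) := by
      ext t
      rw [mem_im_iff hc hv (by linarith [hr.1]), mem_ofPred_eq, le_max_iff]
      constructor
      · rintro (h7 | h7)
        · linarith
        · linarith
      · intro h7
        left
        linarith
    simp only
    rw [e3]
    by_cases hsc : r + s ≤ cmax K
    · rw [indicator_of_mem (show s ∈ Ioc 0 (cmax K - r) from ⟨hs0, by linarith⟩)]
      exact vol_im hc hv (h5 _ ⟨by linarith [hr.1], hsc⟩).1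
    · rw [indicator_of_notMem (fun h7 => hsc (by linarith [h7.2])), h6 _ (by linarith)]
      simp
  unfold area
  rw [e1]
  have hcr : 0 ≤ cmax K - r := by linarith [hr.2]
  have e4 : ∫ s in r..cmax K, wid K s = ∫ s in (0 : ℝ)..(cmax K - r), wid K (r + s) := by
    rw [intervalIntegral.integral_comp_add_left (fun s => wid K s) r]
    simp
  rw [e4, intervalIntegral.integral_of_le hcr, integral_eq_lintegral_of_nonneg_ae]
  · rw [Filter.EventuallyLE, ae_restrict_iff' measurableSet_Ioc]
    refine Eventually.of_forall fun s hs => ?_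
    exact (h5 _ ⟨by linarith [hr.1, hs.1], by linarith [hs.2]⟩).2.1
  · have hco : ContinuousOn (fun s => wid K (r + s)) (Ioc 0 (cmax K - r)) := by
      refine h4.comp (by fun_prop) ?_
      intro s hs
      exact ⟨by linarith [hr.1, hs.1], by linarith [hs.2]⟩
    exact hco.aestronglyMeasurable measurableSet_Ioc

end Pool.Agent.Helper36.CB
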