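import Pool.Agent.Helper36.CB.M_TWO

set_option autoImplicit false

open MeasureTheory Set Filter

namespace Pool.Agent.Helper36.CB

open Helper97.CB

private theorem one_aux {m : ℝ} {c W k : ℝ} {D : ℝ → ℝ} (hc : 0 < c) (hcont : ContinuousOn D (Icc 0 c))
    (hD : ConcaveOn ℝ (Icc 0 c) D) (hDW : ∀ s ∈ Icc 0 c, 0 ≤ D s ∧ D s ≤ W)
    (hA : k ≤ ∫ s in (0 : ℝ)..c, D s)
    (hsm : ∀ s ∈ Ioo 0 c, s * (W + D s) < 2 * m * k ∧ D s * (s + c) < 2 * m * k)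
    (τ₁ τ₂ : ℝ) (h1 : 0 ≤ τ₁) (h12 : τ₁ ≤ τ₂) (h2 : τ₂ < 1) (h3 : 0 < τ₂) :
    k < c * W * (τ₁ - (1 - τ₂)) + 2 * m * k * ((τ₂ - τ₁) / (1 + (τ₁ + τ₂) / 2) + (1 - τ₂) / ((1 + τ₂) / 2)) := by
  have h := key_TWO (m := m) (k := k) hc hcont hD hDW hsm 1 0 τ₁ τ₂ τ₁ (τ₂ - τ₁) (1 - τ₂) ((τ₁ + τ₂) / 2)
    ((1 + τ₂) / 2) le_rfl zero_le_one h1 h12 h2.le (by ring) (by ring) (by ring) (by ring) (by ring)
    (by linarith) (by linarith) (by linarith) (by linarith) (by linarith) (by linarith)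
  linarith

private theorem one_fin {m xl xu : ℝ} (a₁ a₂ b₁ b₂ : ℝ) (ha1 : 0 ≤ a₁) (ha12 : a₁ ≤ a₂) (ha2 : a₂ < 1)
    (ha3 : 0 < a₂) (hb1 : 0 ≤ b₁) (hb12 : b₁ ≤ b₂) (hb2 : b₂ < 1) (hb3 : 0 < b₂)
    (hs1 : 0 < (1 - a₂) - a₁) (hs2 : 0 < b₁ - (1 - b₂))
    (hn1 : 2 * m * ((a₂ - a₁) / (1 + (a₁ + a₂) / 2) + (1 - a₂) / ((1 + a₂) / 2)) - 1 ≤ xu * ((1 - a₂) - a₁))
    (hn2 : xl * (b₁ - (1 - b₂)) ≤ 1 - 2 * m * ((b₂ - b₁) / (1 + (b₁ + b₂) / 2) + (1 - b₂) / ((1 + b₂) / 2))) :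
    StOne m xl xu := by
  intro c W k D hc hW hk hcont hD hDW hA hsm
  have h1 := one_aux hc hcont hD hDW hA hsm a₁ a₂ ha1 ha12 ha2 ha3
  have h2 := one_aux hc hcont hD hDW hA hsm b₁ b₂ hb1 hb12 hb2 hb3
  have h3 := mul_le_mul_of_nonneg_left hn1 hk.le
  have h4 := mul_le_mul_of_nonneg_left hn2 hk.le
  constructor
  · refine lt_of_mul_lt_mul_right (a := b₁ - (1 - b₂)) ?_ hs2.le
    nlinarith
  · refine lt_of_mul_lt_mul_right (a := (1 - a₂) - a₁) ?_ hs1.le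
    nlinarith

theorem hONE1 : StOne (826995/1000000) (1106/1000) (1453/1000) := by
  refine one_fin (90/1000) (658/1000) (479/1000) (815/1000) ?_ ?_ ?_ ?_ ?_ ?_ ?_ ?_ ?_ ?_ ?_ ?_ <;> norm_num

theorem hONE2 : StOne (81422/100000) (1157/1000) (1354/1000) := by
  refine one_fin (162/1000) (688/1000) (385/1000) (779/1000) ?_ ?_ ?_ ?_ ?_ ?_ ?_ ?_ ?_ ?_ ?_ ?_ <;> norm_num

end Pool.Agent.Helper36.CB
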