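import Pool.Agent.Helper97.CB.St

set_option autoImplicit false

open MeasureTheory Set Filter

namespace Pool.Agent.Helper36.CB

open Helper97.CB

/-- Supporting line of a concave function. -/
private theorem supp {c b : ℝ} {D : ℝ → ℝ} (hD : ConcaveOn ℝ (Icc 0 c) D) (hb : b ∈ Ioo 0 c) :
    ∃ m : ℝ, ∀ s ∈ Icc 0 c, D s ≤ D b + m * (s - b) := by
  obtain ⟨h0b, hbc⟩ := hb
  have hbm : b ∈ Icc 0 c := ⟨h0b.le, hbc.le⟩
  have key : ∀ x ∈ Ico 0 b, ∀ y ∈ Ioc b c, (D y - D b) / (y - b) ≤ (D b - D x) / (b - x) := by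
    intro x hx y hy
    have h := hD.slope_anti_adjacent (x := x) (y := b) (z := y) ⟨hx.1, by linarith [hx.2]⟩
      ⟨by linarith [hy.1], hy.2⟩ hx.2 hy.1
    exact h
  let S : Set ℝ := (fun x => (D b - D x) / (b - x)) '' Ico 0 b
  have hSne : S.Nonempty := ⟨_, ⟨0, ⟨le_refl _, h0b⟩, rfl⟩⟩
  have hSb : BddBelow S := by
    refine ⟨(D c - D b) / (c - b), ?_⟩
    rintro _ ⟨x, hx, rfl⟩
    exact key x hx c ⟨hbc, le_refl _⟩
  refine ⟨sInf S, fun s hs => ?_⟩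
  rcases lt_trichotomy s b with h | h | h
  · have h1 : sInf S ≤ (D b - D s) / (b - s) := csInf_le hSb ⟨s, ⟨hs.1, h⟩, rfl⟩
    rw [le_div_iff₀ (by linarith)] at h1
    linarith
  · subst h; simp
  · have h1 : (D s - D b) / (s - b) ≤ sInf S := by
      refine le_csInf hSne ?_
      rintro _ ⟨x, hx, rfl⟩
      exact key x hx s ⟨h, hs.2⟩
    rw [div_le_iff₀ (by linarith)] at h1
    linarith

/-- Weighted Jensen. -/
private theorem jen {c b s1 s2 : ℝ} {D w : ℝ → ℝ} (hD : ConcaveOn ℝ (Icc 0 c) D)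
    (hc : ContinuousOn D (Icc 0 c)) (hw : Continuous w) (hb : b ∈ Ioo 0 c) (h0 : 0 ≤ s1) (h12 : s1 ≤ s2)
    (h2 : s2 ≤ c) (hpos : ∀ s ∈ Icc s1 s2, 0 ≤ w s)
    (hcen : ∫ s in s1..s2, w s * s = b * ∫ s in s1..s2, w s) :
    ∫ s in s1..s2, w s * D s ≤ D b * ∫ s in s1..s2, w s := by
  obtain ⟨m, hm⟩ := supp hD hb
  have hsub : Icc s1 s2 ⊆ Icc 0 c := Icc_subset_Icc h0 h2
  have h1 : ∫ s in s1..s2, w s * D s ≤ ∫ s in s1..s2, w s * (D b + m * (s - b)) := by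
    refine intervalIntegral.integral_mono_on h12 ?_ ?_ ?_
    · refine ContinuousOn.intervalIntegrable ?_
      rw [uIcc_of_le h12]
      exact hw.continuousOn.mul (hc.mono hsub)
    · exact (Continuous.intervalIntegrable (by fun_prop) _ _)
    · intro x hx
      exact mul_le_mul_of_nonneg_left (hm x (hsub hx)) (hpos x hx)
  have h3 : ∫ s in s1..s2, w s * (D b + m * (s - b)) =
      (D b - m * b) * (∫ s in s1..s2, w s) + m * ∫ s in s1..s2, w s * s := by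
    rw [← intervalIntegral.integral_const_mul, ← intervalIntegral.integral_const_mul,
      ← intervalIntegral.integral_add]
    · congr 1
      ext s
      ring
    · exact (Continuous.intervalIntegrable (by fun_prop) _ _)
    · exact (Continuous.intervalIntegrable (by fun_prop) _ _)
  rw [h3, hcen] at h1
  calc _ ≤ _ := h1
    _ = _ := by ring

private theorem int0 (κ e s1 s2 : ℝ) : ∫ s in s1..s2, (κ - e * s ^ 2) =
    κ * (s2 - s1) - e * (s2 ^ 3 - s1 ^ 3) / 3 := by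
  rw [intervalIntegral.integral_sub (by simp) ((Continuous.intervalIntegrable (by fun_prop) _ _)),
    intervalIntegral.integral_const_mul, integral_pow]
  simp
  ring

private theorem int1 (κ e s1 s2 : ℝ) : ∫ s in s1..s2, (κ - e * s ^ 2) * s =
    κ * (s2 ^ 2 - s1 ^ 2) / 2 - e * (s2 ^ 4 - s1 ^ 4) / 4 := by
  have h : ∀ s : ℝ, (κ - e * s ^ 2) * s = κ * s ^ 1 - e * s ^ 3 := fun s => by ring
  simp_rw [h]
  rw [intervalIntegral.integral_sub ((Continuous.intervalIntegrable (by fun_prop) _ _))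
    ((Continuous.intervalIntegrable (by fun_prop) _ _)),
    intervalIntegral.integral_const_mul, intervalIntegral.integral_const_mul, integral_pow, integral_pow]
  norm_num
  ring

/-- The basic inequality. -/
theorem key_TWO {c W k m : ℝ} {D : ℝ → ℝ} (hc : 0 < c) (hcont : ContinuousOn D (Icc 0 c))
    (hD : ConcaveOn ℝ (Icc 0 c) D) (hDW : ∀ s ∈ Icc 0 c, 0 ≤ D s ∧ D s ≤ W)
    (hsm : ∀ s ∈ Ioo 0 c, s * (W + D s) < 2 * m * k ∧ D s * (s + c) < 2 * m * k)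
    (κ ε τ₁ τ₂ r p q β α : ℝ) (hε : 0 ≤ ε) (hεκ : ε ≤ κ) (h1 : 0 ≤ τ₁) (h12 : τ₁ ≤ τ₂) (h2 : τ₂ ≤ 1)
    (hr : r = κ * τ₁ - ε * τ₁ ^ 3 / 3) (hp : p = κ * (τ₂ - τ₁) - ε * (τ₂ ^ 3 - τ₁ ^ 3) / 3)
    (hq : q = κ * (1 - τ₂) - ε * (1 - τ₂ ^ 3) / 3)
    (hβ : p * β = κ * (τ₂ ^ 2 - τ₁ ^ 2) / 2 - ε * (τ₂ ^ 4 - τ₁ ^ 4) / 4)
    (hα : q * α = κ * (1 - τ₂ ^ 2) / 2 - ε * (1 - τ₂ ^ 4) / 4)
    (hp0 : 0 ≤ p) (hq0 : 0 < q) (hβ0 : 0 < β) (hβ1 : β < 1) (hα0 : 0 < α) (hα1 : α < 1) :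
    κ * (∫ s in (0 : ℝ)..c, D s) - ε * ((∫ s in (0 : ℝ)..c, s ^ 2 * D s) / c ^ 2) <
      c * W * (r - q) + 2 * m * k * (p / (1 + β) + q / α) := by
  let w : ℝ → ℝ := fun s => κ - ε / c ^ 2 * s ^ 2
  have hwc : Continuous w := by fun_prop
  have hwpos : ∀ s ∈ Icc 0 c, 0 ≤ w s := by
    intro s hs
    have h3 : s ^ 2 ≤ c ^ 2 := pow_le_pow_left₀ hs.1 hs.2 2
    have h4 : ε / c ^ 2 * s ^ 2 ≤ ε / c ^ 2 * c ^ 2 :=
      mul_le_mul_of_nonneg_left h3 (by positivity)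
    rw [div_mul_cancel₀ _ (by positivity)] at h4
    simp only [w]
    linarith
  have hc2 : c ≠ 0 := hc.ne'
  have hs1 : 0 ≤ τ₁ * c := by positivity
  have hs12 : τ₁ * c ≤ τ₂ * c := mul_le_mul_of_nonneg_right h12 hc.le
  have hs2 : τ₂ * c ≤ c := by nlinarith
  have hW : ∀ s1 s2 : ℝ, ∫ s in s1..s2, w s = κ * (s2 - s1) - ε / c ^ 2 * (s2 ^ 3 - s1 ^ 3) / 3 :=
    fun s1 s2 => int0 _ _ _ _
  have hW1 : ∀ s1 s2 : ℝ, ∫ s in s1..s2, w s * s =
      κ * (s2 ^ 2 - s1 ^ 2) / 2 - ε / c ^ 2 * (s2 ^ 4 - s1 ^ 4) / 4 :=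
    fun s1 s2 => int1 _ _ _ _
  have hIr : ∫ s in (0 : ℝ)..(τ₁ * c), w s = c * r := by
    rw [hW, hr]; field_simp; ring
  have hIp : ∫ s in (τ₁ * c)..(τ₂ * c), w s = c * p := by
    rw [hW, hp]; field_simp
  have hIq : ∫ s in (τ₂ * c)..c, w s = c * q := by
    rw [hW, hq]; field_simp
  have hint : ∀ s1 s2 : ℝ, 0 ≤ s1 → s1 ≤ s2 → s2 ≤ c →
      IntervalIntegrable (fun s => w s * D s) volume s1 s2 := by
    intro s1 s2 a1 a2 a3
    refine ContinuousOn.intervalIntegrable ?_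
    rw [uIcc_of_le a2]
    exact hwc.continuousOn.mul (hcont.mono (Icc_subset_Icc a1 a3))
  have hDint : IntervalIntegrable D volume 0 c := by
    refine ContinuousOn.intervalIntegrable ?_
    rwa [uIcc_of_le hc.le]
  have hDint2 : IntervalIntegrable (fun s => s ^ 2 * D s) volume 0 c := by
    refine ContinuousOn.intervalIntegrable ?_
    rw [uIcc_of_le hc.le]
    exact (by fun_prop : Continuous fun s : ℝ => s ^ 2).continuousOn.mul hcont
  -- first part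
  have hA : ∫ s in (0 : ℝ)..(τ₁ * c), w s * D s ≤ W * (c * r) := by
    rw [← hIr, ← intervalIntegral.integral_const_mul]
    refine intervalIntegral.integral_mono_on hs1 (hint _ _ le_rfl hs1 (hs12.trans hs2))
      (Continuous.intervalIntegrable (by fun_prop) _ _) ?_
    intro x hx
    have hx' : x ∈ Icc 0 c := ⟨hx.1, hx.2.trans (hs12.trans hs2)⟩
    rw [mul_comm W]
    exact mul_le_mul_of_nonneg_left (hDW x hx').2 (hwpos x hx')
  have hβc : β * c ∈ Ioo 0 c := ⟨by positivity, by nlinarith⟩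
  have hαc : α * c ∈ Ioo 0 c := ⟨by positivity, by nlinarith⟩
  have hB : ∫ s in (τ₁ * c)..(τ₂ * c), w s * D s ≤ D (β * c) * (c * p) := by
    rw [← hIp]
    refine jen hD hcont hwc hβc hs1 hs12 hs2
      (fun s hs => hwpos s ⟨hs1.trans hs.1, hs.2.trans hs2⟩) ?_
    rw [hIp, hW1]
    have : β * c * (c * p) = c ^ 2 * (p * β) := by ring
    rw [this, hβ]
    field_simp
  have hC : ∫ s in (τ₂ * c)..c, w s * D s ≤ D (α * c) * (c * q) := by
    rw [← hIq]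
    refine jen hD hcont hwc hαc (hs1.trans hs12) hs2 le_rfl
      (fun s hs => hwpos s ⟨(hs1.trans hs12).trans hs.1, hs.2⟩) ?_
    rw [hIq, hW1]
    have : α * c * (c * q) = c ^ 2 * (q * α) := by ring
    rw [this, hα]
    field_simp
  have hsplit : ∫ s in (0 : ℝ)..c, w s * D s = (∫ s in (0 : ℝ)..(τ₁ * c), w s * D s) +
      (∫ s in (τ₁ * c)..(τ₂ * c), w s * D s) + ∫ s in (τ₂ * c)..c, w s * D s := by
    rw [intervalIntegral.integral_add_adjacent_intervals (hint _ _ le_rfl hs1 (hs12.trans hs2))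
      (hint _ _ hs1 hs12 hs2), intervalIntegral.integral_add_adjacent_intervals
      (hint _ _ le_rfl (hs1.trans hs12) hs2) (hint _ _ (hs1.trans hs12) hs2 le_rfl)]
  have htot : ∫ s in (0 : ℝ)..c, w s * D s =
      κ * (∫ s in (0 : ℝ)..c, D s) - ε * ((∫ s in (0 : ℝ)..c, s ^ 2 * D s) / c ^ 2) := by
    have e1 : ε * ((∫ s in (0 : ℝ)..c, s ^ 2 * D s) / c ^ 2) =
        ∫ s in (0 : ℝ)..c, ε / c ^ 2 * (s ^ 2 * D s) := by
      rw [intervalIntegral.integral_const_mul]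
      ring
    rw [e1, ← intervalIntegral.integral_const_mul, ← intervalIntegral.integral_sub
      (hDint.const_mul κ) (hDint2.const_mul _)]
    congr 1
    ext s
    simp only [w]
    ring
  rw [← htot, hsplit]
  have hb := (hsm _ hβc).2
  have ha := (hsm _ hαc).1
  -- p D(β c) c ≤ 2 m k p / (1+β)
  have hb1 : D (β * c) * (c * p) ≤ 2 * m * k * (p / (1 + β)) := by
    have h3 : D (β * c) * c * (1 + β) ≤ 2 * m * k := by
      calc D (β * c) * c * (1 + β) = D (β * c) * (β * c + c) := by ring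
        _ ≤ _ := hb.le
    have h4 : D (β * c) * c ≤ 2 * m * k / (1 + β) := by
      rw [le_div_iff₀ (by linarith)]
      exact h3
    calc D (β * c) * (c * p) = (D (β * c) * c) * p := by ring
      _ ≤ (2 * m * k / (1 + β)) * p := mul_le_mul_of_nonneg_right h4 hp0
      _ = _ := by ring
  have ha1 : D (α * c) * (c * q) < 2 * m * k * (q / α) - c * W * q := by
    have h3 : c * (W + D (α * c)) < 2 * m * k / α := by
      rw [lt_div_iff₀ hα0]
      calc c * (W + D (α * c)) * α = α * c * (W + D (α * c)) := by ring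
        _ < _ := ha
    have h4 := mul_lt_mul_of_pos_right h3 hq0
    have h5 : 2 * m * k / α * q = 2 * m * k * (q / α) := by ring
    nlinarith
  nlinarith

/-- The second moment bound. -/
private theorem two_aux {m β₀ : ℝ} (hβ₀ : 0 < β₀) (κ τ₁ τ₂ r p q β α : ℝ) (hκ : 1 ≤ κ) (h1 : 0 ≤ τ₁)
    (h12 : τ₁ ≤ τ₂) (h2 : τ₂ ≤ 1)
    (hr : r = κ * τ₁ - 1 * τ₁ ^ 3 / 3) (hp : p = κ * (τ₂ - τ₁) - 1 * (τ₂ ^ 3 - τ₁ ^ 3) / 3)
    (hq : q = κ * (1 - τ₂) - 1 * (1 - τ₂ ^ 3) / 3)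
    (hβ : p * β = κ * (τ₂ ^ 2 - τ₁ ^ 2) / 2 - 1 * (τ₂ ^ 4 - τ₁ ^ 4) / 4)
    (hα : q * α = κ * (1 - τ₂ ^ 2) / 2 - 1 * (1 - τ₂ ^ 4) / 4)
    (hp0 : 0 ≤ p) (hq0 : 0 < q) (hβ0 : 0 < β) (hβ1 : β < 1) (hα0 : 0 < α) (hα1 : α < 1)
    (hrq : r ≤ q) (hfin : 1 / β₀ ≤ κ - 2 * m * (p / (1 + β) + q / α)) : StTwo m β₀ := by
  intro c W k d D hc hW hk hd hcont hD hDW hA hJ hsm
  have h := key_TWO hc hcont hD hDW hsm κ 1 τ₁ τ₂ r p q β α zero_le_one hκ h1 h12 h2 hr hp hq hβ hα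
    hp0 hq0 hβ0 hβ1 hα0 hα1
  have h3 : (∫ s in (0 : ℝ)..c, s ^ 2 * D s) / c ^ 2 ≤ k ^ 2 / d := by
    rw [div_le_iff₀ (by positivity)]
    exact hJ
  have h4 : c * W * (r - q) ≤ 0 := mul_nonpos_of_nonneg_of_nonpos (by positivity) (by linarith)
  have h5 : κ * k ≤ κ * ∫ s in (0 : ℝ)..c, D s := mul_le_mul_of_nonneg_left hA (by linarith)
  have h6 : k * (1 / β₀) ≤ k * (κ - 2 * m * (p / (1 + β) + q / α)) :=
    mul_le_mul_of_nonneg_left hfin hk.le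
  have h7 : k * (1 / β₀) < k ^ 2 / d := by nlinarith
  rw [mul_one_div, div_lt_div_iff₀ hβ₀ hd] at h7
  nlinarith

theorem hTWO1 : StTwo (826995/1000000) (456/100) := by
  refine two_aux (by norm_num) (109/100) (105/1000) (69/100) _ _ _ (2153337/5782240) (3568773/4415600)
    ?_ ?_ ?_ ?_ rfl rfl rfl ?_ ?_ ?_ ?_ ?_ ?_ ?_ ?_ ?_ ?_ <;> norm_num

theorem hTWO2 : StTwo (81422/100000) (425/100) := by
  refine two_aux (by norm_num) (1555/1000) (16/100) (70/100) _ _ _ (46483/112150) (459/550)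
    ?_ ?_ ?_ ?_ rfl rfl rfl ?_ ?_ ?_ ?_ ?_ ?_ ?_ ?_ ?_ ?_ <;> norm_num

end Pool.Agent.Helper36.CB
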